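import Pool.Agent.Lib.MP_14f458_gt.Final

namespace Pool.Agent.Results.MP_14f458_gt.IrrationalMin

open Pool.Agent.Lib.MP_14f458_gt

/-- For every surface of genus `g` with `n ≥ 2` punctures and `|χ| = 2 g + n - 2 ≥ 3` there is a
pseudo-Anosov mapping class whose minimal point on the fibered face is not a rational class. -/
theorem result (g n : ℕ) (hn : 2 ≤ n) (hχ : 3 ≤ 2 * g + n - 2) :
    ∃ φ : MulAut (Pi1 g n), IsPA g n φ ∧
      ¬ RatMin (SemidirectProduct.rightHom : Torus φ →* Multiplicative ℤ) :=
  main g n hn (by omega)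

end Pool.Agent.Results.MP_14f458_gt.IrrationalMin
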